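import Mathlib

/-! Anticoncentration of sums of independent Bernoulli variables, by generating polynomials. -/

set_option autoImplicit false

namespace Pool.Agent.Helper77.VoteSqrt

open Polynomial Finset

/-- the generating polynomial of a Bernoulli variable -/
noncomputable def gp (p : ℝ) : ℝ[X] := C (1 - p) + C p * X

theorem coeff_gp_mul_zero (p : ℝ) (f : ℝ[X]) : (gp p * f).coeff 0 = (1 - p) * f.coeff 0 := by
  unfold gp
  rw [add_mul, coeff_add, coeff_C_mul, mul_assoc, coeff_C_mul, mul_coeff_zero, coeff_X_zero]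
  ring

theorem coeff_gp_mul_succ (p : ℝ) (f : ℝ[X]) (k : ℕ) :
    (gp p * f).coeff (k + 1) = (1 - p) * f.coeff (k + 1) + p * f.coeff k := by
  unfold gp
  rw [add_mul, coeff_add, coeff_C_mul, mul_assoc, coeff_C_mul, coeff_X_mul]

theorem coeff_gp_pow (p : ℝ) (k i : ℕ) :
    ((gp p) ^ k).coeff i = (k.choose i : ℝ) * p ^ i * (1 - p) ^ (k - i) := by
  unfold gp
  rw [add_comm, add_pow, finsetSum_coeff]
  have h : ∀ j ∈ range (k + 1), (((C p * X) ^ j * C (1 - p) ^ (k - j) *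
      ((k.choose j : ℕ) : ℝ[X])).coeff i : ℝ) =
      if i = j then (k.choose j : ℝ) * p ^ j * (1 - p) ^ (k - j) else 0 := by
    intro j _
    have h1 : (C p * X) ^ j * C (1 - p) ^ (k - j) * ((k.choose j : ℕ) : ℝ[X]) =
        C ((k.choose j : ℝ) * p ^ j * (1 - p) ^ (k - j)) * X ^ j := by
      rw [mul_pow, C_mul, C_mul, C_pow, C_pow]
      have : (C ((k.choose j : ℕ) : ℝ) : ℝ[X]) = ((k.choose j : ℕ) : ℝ[X]) := by simp
      rw [this]
      ring
    rw [h1, coeff_C_mul, coeff_X_pow]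
    by_cases hij : i = j
    · rw [if_pos hij, if_pos hij, mul_one]
    · rw [if_neg hij, if_neg hij, mul_zero]
  rw [sum_congr rfl h, sum_ite_eq]
  by_cases hi : i ∈ range (k + 1)
  · rw [if_pos hi]
  · rw [if_neg hi]
    rw [mem_range, not_lt] at hi
    rw [Nat.choose_eq_zero_of_lt (by omega)]
    simp

/-- `P(Bin(k, p) + Bin(l, q) = m)` -/
theorem coeff_two (p q : ℝ) (k l m : ℕ) : ((gp p) ^ k * (gp q) ^ l).coeff m =
    ∑ i ∈ range (m + 1), (k.choose i : ℝ) * p ^ i * (1 - p) ^ (k - i) *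
      ((l.choose (m - i) : ℝ) * q ^ (m - i) * (1 - q) ^ (l - (m - i))) := by
  rw [coeff_mul, Finset.Nat.sum_antidiagonal_eq_sum_range_succ_mk]
  refine sum_congr rfl fun i _ => ?_
  rw [coeff_gp_pow, coeff_gp_pow]

theorem central_sq (a : ℕ) : (2 * a + 1) * (Nat.centralBinom a) ^ 2 ≤ 16 ^ a := by
  induction a with
  | zero => simp
  | succ a ih =>
    have h := Nat.succ_mul_centralBinom_succ a
    have h1 : (a + 1) ^ 2 * ((2 * (a + 1) + 1) * (Nat.centralBinom (a + 1)) ^ 2) ≤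
        (a + 1) ^ 2 * 16 ^ (a + 1) := by
      calc (a + 1) ^ 2 * ((2 * (a + 1) + 1) * (Nat.centralBinom (a + 1)) ^ 2)
          = (2 * a + 3) * ((a + 1) * Nat.centralBinom (a + 1)) ^ 2 := by ring
        _ = (2 * a + 3) * (2 * (2 * a + 1) * Nat.centralBinom a) ^ 2 := by rw [h]
        _ = 4 * ((2 * a + 3) * (2 * a + 1)) * ((2 * a + 1) * (Nat.centralBinom a) ^ 2) := by ring
        _ ≤ 4 * (4 * (a + 1) ^ 2) * 16 ^ a :=
            Nat.mul_le_mul (Nat.mul_le_mul_left _ (by nlinarith)) ih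
        _ = (a + 1) ^ 2 * 16 ^ (a + 1) := by ring
    exact Nat.le_of_mul_le_mul_left h1 (by positivity)

theorem choose_sq (M j : ℕ) : (M + 1) * (M.choose j) ^ 2 ≤ 4 ^ M := by
  have h0 : (M + 1) * (M.choose j) ^ 2 ≤ (M + 1) * (M.choose (M / 2)) ^ 2 :=
    Nat.mul_le_mul_left _ (Nat.pow_le_pow_left (Nat.choose_le_middle j M) 2)
  refine h0.trans ?_
  rcases Nat.even_or_odd' M with ⟨a, rfl | rfl⟩
  · rw [Nat.mul_div_cancel_left a (by norm_num), pow_mul]
    exact central_sq a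
  · have h1 : (2 * a + 1) / 2 = a := by omega
    rw [h1]
    have h2 := central_sq (a + 1)
    have h3 : Nat.centralBinom (a + 1) = 2 * (2 * a + 1).choose a := by
      have h5 : (2 * a + 1).choose (a + 1) = (2 * a + 1).choose a :=
        Nat.choose_symm_of_eq_add (by omega)
      rw [Nat.centralBinom_eq_two_mul_choose, show 2 * (a + 1) = 2 * a + 1 + 1 by ring,
        Nat.choose_succ_succ, Nat.succ_eq_add_one, h5]
      ring
    rw [h3] at h2
    have h4 : (16 : ℕ) ^ (a + 1) = 4 * 4 ^ (2 * a + 1) := by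
      rw [show (16 : ℕ) = 4 ^ 2 by norm_num, ← pow_mul, ← pow_succ']
      congr 1
    rw [h4] at h2
    nlinarith

theorem choose_le_sqrt (M j : ℕ) : (M.choose j : ℝ) ≤ 2 ^ M / Real.sqrt (M + 1) := by
  have h0 : (0 : ℝ) < (M : ℝ) + 1 := by positivity
  have h := choose_sq M j
  have h' : ((M : ℝ) + 1) * (M.choose j : ℝ) ^ 2 ≤ 4 ^ M := by exact_mod_cast h
  rw [le_div_iff₀ (Real.sqrt_pos.mpr h0)]
  refine le_of_sq_le_sq ?_ (by positivity)
  rw [mul_pow, Real.sq_sqrt h0.le, ← pow_mul, mul_comm M 2, pow_mul]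
  norm_num
  linarith

/-- a product with a polynomial with nonnegative coefficients -/
theorem coeff_mul_le {f h : ℝ[X]} {c : ℝ} (hf : ∀ i, 0 ≤ f.coeff i) (hc : 0 ≤ c)
    (hh : ∀ i, h.coeff i ≤ c) (m : ℕ) : (f * h).coeff m ≤ f.eval 1 * c := by
  have h1 : (f * h).coeff m ≤ ∑ i ∈ range (m + 1), f.coeff i * c := by
    rw [coeff_mul, Finset.Nat.sum_antidiagonal_eq_sum_range_succ_mk]
    exact sum_le_sum fun i _ => mul_le_mul_of_nonneg_left (hh _) (hf i)
  refine h1.trans ?_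
  rw [← sum_mul]
  refine mul_le_mul_of_nonneg_right ?_ hc
  have h2 : f.eval 1 = ∑ i ∈ range (max (m + 1) (f.natDegree + 1)), f.coeff i := by
    rw [eval_eq_sum_range' (lt_of_lt_of_le (Nat.lt_succ_self _)
      (le_max_right (m + 1) (f.natDegree + 1)))]
    exact sum_congr rfl fun i _ => by rw [one_pow, mul_one]
  rw [h2]
  exact sum_le_sum_of_subset_of_nonneg (range_subset_range.mpr (le_max_left _ _))
    fun i _ _ => hf i

/-- products of polynomials with nonnegative coefficients -/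
theorem coeff_prod_nonneg {ι : Type} (s : Finset ι) (f : ι → ℝ[X])
    (h : ∀ i ∈ s, ∀ j, 0 ≤ (f i).coeff j) : ∀ j, 0 ≤ (∏ i ∈ s, f i).coeff j := by
  classical
  induction s using Finset.induction_on with
  | empty =>
    intro j
    rw [prod_empty, coeff_one]
    split_ifs <;> norm_num
  | insert a s ha ih =>
    intro j
    rw [prod_insert ha, coeff_mul]
    exact sum_nonneg fun x _ => mul_nonneg (h a (mem_insert_self _ _) _)
      (ih (fun i hi => h i (mem_insert_of_mem hi)) _)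

theorem coeff_one_add_X (M j : ℕ) : ((1 + X : ℝ[X]) ^ M).coeff j = (M.choose j : ℝ) :=
  coeff_one_add_X_pow ℝ M j

/-- `∑ C(n, M) p^M (1-p)^(n-M) / (M + 1) ≤ 1 / ((n + 1) p)` -/
theorem sum_inv_succ {p : ℝ} (hp : 0 < p) (hp1 : p ≤ 1) (n : ℕ) :
    ∑ M ∈ range (n + 1), (n.choose M : ℝ) * p ^ M * (1 - p) ^ (n - M) * ((M : ℝ) + 1)⁻¹ ≤
      1 / ((n + 1) * p) := by
  have h1 : ∀ M ∈ range (n + 1), (n.choose M : ℝ) * p ^ M * (1 - p) ^ (n - M) *
      ((M : ℝ) + 1)⁻¹ = (1 / ((n + 1) * p)) * (p ^ (M + 1) * (1 - p) ^ (n + 1 - (M + 1)) *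
        ((n + 1).choose (M + 1) : ℝ)) := by
    intro M _
    have h2 : ((n : ℝ) + 1) * (n.choose M : ℝ) = ((n + 1).choose (M + 1) : ℝ) * ((M : ℝ) + 1) := by
      have := Nat.add_one_mul_choose_eq n M
      exact_mod_cast this
    have h3 : (n.choose M : ℝ) * ((M : ℝ) + 1)⁻¹ =
        ((n + 1).choose (M + 1) : ℝ) * ((n : ℝ) + 1)⁻¹ := by
      have hM : (M : ℝ) + 1 ≠ 0 := by positivity
      have hn : (n : ℝ) + 1 ≠ 0 := by positivity
      field_simp
      linarith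
    have h4 : n + 1 - (M + 1) = n - M := by omega
    rw [h4]
    calc (n.choose M : ℝ) * p ^ M * (1 - p) ^ (n - M) * ((M : ℝ) + 1)⁻¹
        = ((n.choose M : ℝ) * ((M : ℝ) + 1)⁻¹) * p ^ M * (1 - p) ^ (n - M) := by ring
      _ = (((n + 1).choose (M + 1) : ℝ) * ((n : ℝ) + 1)⁻¹) * p ^ M * (1 - p) ^ (n - M) := by
          rw [h3]
      _ = _ := by
          field_simp
          ring
  rw [sum_congr rfl h1, ← mul_sum]
  have h5 : ∑ M ∈ range (n + 1), p ^ (M + 1) * (1 - p) ^ (n + 1 - (M + 1)) *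
      ((n + 1).choose (M + 1) : ℝ) ≤ 1 := by
    have h6 := add_pow p (1 - p) (n + 1)
    rw [sum_range_succ'] at h6
    have h7 : p + (1 - p) = 1 := by ring
    rw [h7, one_pow] at h6
    have h8 : (0 : ℝ) ≤ p ^ 0 * (1 - p) ^ (n + 1 - 0) * ((n + 1).choose 0 : ℝ) := by
      have : (0 : ℝ) ≤ 1 - p := by linarith
      positivity
    linarith
  calc 1 / ((n + 1) * p) * ∑ M ∈ range (n + 1), p ^ (M + 1) * (1 - p) ^ (n + 1 - (M + 1)) *
      ((n + 1).choose (M + 1) : ℝ) ≤ 1 / ((n + 1) * p) * 1 :=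
        mul_le_mul_of_nonneg_left h5 (by positivity)
    _ = 1 / ((n + 1) * p) := mul_one _

/-- `∑ C(n, M) p^M (1-p)^(n-M) / ((M + 1)(M + 2)) ≤ 1 / ((n + 1)(n + 2) p²)` -/
theorem sum_inv_succ_succ {p : ℝ} (hp : 0 < p) (hp1 : p ≤ 1) (n : ℕ) :
    ∑ M ∈ range (n + 1), (n.choose M : ℝ) * p ^ M * (1 - p) ^ (n - M) *
      (((M : ℝ) + 1) * ((M : ℝ) + 2))⁻¹ ≤ 1 / ((n + 1) * (n + 2) * p ^ 2) := by
  have h1 : ∀ M ∈ range (n + 1), (n.choose M : ℝ) * p ^ M * (1 - p) ^ (n - M) *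
      (((M : ℝ) + 1) * ((M : ℝ) + 2))⁻¹ = (1 / ((n + 1) * (n + 2) * p ^ 2)) *
        (p ^ (M + 1 + 1) * (1 - p) ^ (n + 2 - (M + 1 + 1)) *
        ((n + 2).choose (M + 1 + 1) : ℝ)) := by
    intro M _
    have h2 : ((n : ℝ) + 1) * (n.choose M : ℝ) = ((n + 1).choose (M + 1) : ℝ) * ((M : ℝ) + 1) := by
      have := Nat.add_one_mul_choose_eq n M
      exact_mod_cast this
    have h2' : ((n : ℝ) + 2) * ((n + 1).choose (M + 1) : ℝ) =
        ((n + 2).choose (M + 1 + 1) : ℝ) * ((M : ℝ) + 2) := by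
      have := Nat.add_one_mul_choose_eq (n + 1) (M + 1)
      have h3 : (((n + 1 + 1) * (n + 1).choose (M + 1) : ℕ) : ℝ) =
          (((n + 1 + 1).choose (M + 1 + 1) * (M + 1 + 1) : ℕ) : ℝ) := by exact_mod_cast this
      push_cast at h3
      have e1 : (n : ℝ) + 2 = n + 1 + 1 := by ring
      have e2 : (M : ℝ) + 2 = M + 1 + 1 := by ring
      rw [e1, e2]
      exact h3
    have h3 : (n.choose M : ℝ) * (((M : ℝ) + 1) * ((M : ℝ) + 2))⁻¹ =
        ((n + 2).choose (M + 1 + 1) : ℝ) * (((n : ℝ) + 1) * ((n : ℝ) + 2))⁻¹ := by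
      have hM : (M : ℝ) + 1 ≠ 0 := by positivity
      have hn : (n : ℝ) + 1 ≠ 0 := by positivity
      have hM2 : (M : ℝ) + 2 ≠ 0 := by positivity
      have hn2 : (n : ℝ) + 2 ≠ 0 := by positivity
      have h5 : (n.choose M : ℝ) * (((n : ℝ) + 1) * ((n : ℝ) + 2)) =
          ((n + 2).choose (M + 1 + 1) : ℝ) * (((M : ℝ) + 1) * ((M : ℝ) + 2)) := by
        calc (n.choose M : ℝ) * (((n : ℝ) + 1) * ((n : ℝ) + 2))
            = (((n : ℝ) + 1) * (n.choose M : ℝ)) * ((n : ℝ) + 2) := by ring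
          _ = (((n : ℝ) + 2) * ((n + 1).choose (M + 1) : ℝ)) * ((M : ℝ) + 1) := by
              rw [h2]
              ring
          _ = _ := by
              rw [h2']
              ring
      rw [← div_eq_mul_inv, ← div_eq_mul_inv, div_eq_div_iff (mul_ne_zero hM hM2)
        (mul_ne_zero hn hn2)]
      exact h5
    have h4 : n + 2 - (M + 1 + 1) = n - M := by omega
    rw [h4]
    calc (n.choose M : ℝ) * p ^ M * (1 - p) ^ (n - M) * (((M : ℝ) + 1) * ((M : ℝ) + 2))⁻¹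
        = ((n.choose M : ℝ) * (((M : ℝ) + 1) * ((M : ℝ) + 2))⁻¹) * p ^ M *
          (1 - p) ^ (n - M) := by ring
      _ = (((n + 2).choose (M + 1 + 1) : ℝ) * (((n : ℝ) + 1) * ((n : ℝ) + 2))⁻¹) * p ^ M *
          (1 - p) ^ (n - M) := by rw [h3]
      _ = _ := by
          field_simp
          ring
  rw [sum_congr rfl h1, ← mul_sum]
  have hq : (0 : ℝ) ≤ 1 - p := by linarith
  have h5 : ∑ M ∈ range (n + 1), p ^ (M + 1 + 1) * (1 - p) ^ (n + 2 - (M + 1 + 1)) *
      ((n + 2).choose (M + 1 + 1) : ℝ) ≤ 1 := by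
    have h6 := add_pow p (1 - p) (n + 2)
    rw [sum_range_succ', sum_range_succ'] at h6
    have h7 : p + (1 - p) = 1 := by ring
    rw [h7, one_pow] at h6
    have h8 : (0 : ℝ) ≤ p ^ 0 * (1 - p) ^ (n + 2 - 0) * ((n + 2).choose 0 : ℝ) := by positivity
    have h9 : (0 : ℝ) ≤ p ^ (0 + 1) * (1 - p) ^ (n + 2 - (0 + 1)) *
      ((n + 2).choose (0 + 1) : ℝ) := by positivity
    linarith
  calc 1 / ((n + 1) * (n + 2) * p ^ 2) * ∑ M ∈ range (n + 1),
      p ^ (M + 1 + 1) * (1 - p) ^ (n + 2 - (M + 1 + 1)) *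
      ((n + 2).choose (M + 1 + 1) : ℝ) ≤ 1 / ((n + 1) * (n + 2) * p ^ 2) * 1 :=
        mul_le_mul_of_nonneg_left h5 (by positivity)
    _ = 1 / ((n + 1) * (n + 2) * p ^ 2) := mul_one _

/-- `∑ C(n, M) p^M (1-p)^(n-M) / (M + 1/2) ≤ 1 / ((n + 1) p) + 2 / ((n + 1)(n + 2) p²)` -/
theorem sum_inv_half {p : ℝ} (hp : 0 < p) (hp1 : p ≤ 1) (n : ℕ) :
    ∑ M ∈ range (n + 1), (n.choose M : ℝ) * p ^ M * (1 - p) ^ (n - M) *
      ((M : ℝ) + 1 / 2)⁻¹ ≤ 1 / ((n + 1) * p) + 2 * (1 / ((n + 1) * (n + 2) * p ^ 2)) := by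
  have hq : (0 : ℝ) ≤ 1 - p := by linarith
  refine le_trans ?_ (add_le_add (sum_inv_succ hp hp1 n)
    (mul_le_mul_of_nonneg_left (sum_inv_succ_succ hp hp1 n) (by norm_num : (0 : ℝ) ≤ 2)))
  rw [mul_sum, ← sum_add_distrib]
  refine sum_le_sum fun M _ => ?_
  have h5 : (0 : ℝ) ≤ (n.choose M : ℝ) * p ^ M * (1 - p) ^ (n - M) := by positivity
  have h6 : ((M : ℝ) + 1 / 2)⁻¹ ≤ ((M : ℝ) + 1)⁻¹ + 2 * (((M : ℝ) + 1) * ((M : ℝ) + 2))⁻¹ := by
    have hM : (0 : ℝ) ≤ M := Nat.cast_nonneg M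
    have h7 : ((M : ℝ) + 1)⁻¹ + 2 * (((M : ℝ) + 1) * ((M : ℝ) + 2))⁻¹ =
        ((M : ℝ) + 4) / (((M : ℝ) + 1) * ((M : ℝ) + 2)) := by
      field_simp
      ring
    rw [h7, inv_eq_one_div, div_le_div_iff₀ (by positivity) (by positivity)]
    nlinarith
  have h7 := mul_le_mul_of_nonneg_left h6 h5
  refine h7.trans (le_of_eq ?_)
  ring

/-- averages of square roots -/
theorem sum_sqrt {p : ℝ} (hp : 0 ≤ p) (hp1 : p ≤ 1) (n : ℕ) (a : ℕ → ℝ) (ha : ∀ M, 0 ≤ a M)
    {A : ℝ} (hA : 0 < A) (h : ∑ M ∈ range (n + 1), (n.choose M : ℝ) * p ^ M *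
      (1 - p) ^ (n - M) * a M ≤ A) :
    ∑ M ∈ range (n + 1), (n.choose M : ℝ) * p ^ M * (1 - p) ^ (n - M) * Real.sqrt (a M) ≤
      Real.sqrt A := by
  have hq : (0 : ℝ) ≤ 1 - p := by linarith
  set l : ℝ := Real.sqrt A with hl
  have hl0 : 0 < l := Real.sqrt_pos.mpr hA
  have hl2 : A = l * l := (Real.mul_self_sqrt hA.le).symm
  have h1 : ∀ M ∈ range (n + 1), (n.choose M : ℝ) * p ^ M * (1 - p) ^ (n - M) *
      Real.sqrt (a M) ≤ (l / 2) * (p ^ M * (1 - p) ^ (n - M) * (n.choose M : ℝ)) +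
      (1 / (2 * l)) * ((n.choose M : ℝ) * p ^ M * (1 - p) ^ (n - M) * a M) := by
    intro M _
    set r : ℝ := Real.sqrt (a M) with hr
    have hr2 : a M = r * r := (Real.mul_self_sqrt (ha M)).symm
    have h2 : r ≤ l / 2 + 1 / (2 * l) * (r * r) := by
      have h3 : 0 ≤ (r - l) ^ 2 / (2 * l) := by positivity
      have h4 : (r - l) ^ 2 / (2 * l) = l / 2 + 1 / (2 * l) * (r * r) - r := by
        field_simp
        ring
      linarith
    rw [hr2]
    have h5 : (0 : ℝ) ≤ (n.choose M : ℝ) * p ^ M * (1 - p) ^ (n - M) := by positivity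
    have h6 := mul_le_mul_of_nonneg_left h2 h5
    refine h6.trans (le_of_eq ?_)
    ring
  refine (sum_le_sum h1).trans ?_
  rw [sum_add_distrib, ← mul_sum, ← mul_sum]
  have h2 : ∑ M ∈ range (n + 1), p ^ M * (1 - p) ^ (n - M) * (n.choose M : ℝ) = 1 := by
    rw [← add_pow]
    norm_num
  rw [hl2] at h
  rw [h2, mul_one]
  have h4 : 1 / (2 * l) * ∑ M ∈ range (n + 1), (n.choose M : ℝ) * p ^ M * (1 - p) ^ (n - M) *
      a M ≤ 1 / (2 * l) * (l * l) := mul_le_mul_of_nonneg_left h (by positivity)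
  have h5 : 1 / (2 * l) * (l * l) = l / 2 := by
    field_simp
  linarith

/-- Extraction of fair coins: for independent Bernoulli variables with parameters in
`[η, 1 - η]`. -/
theorem coeff_prod_le {ι : Type} (s : Finset ι) (p : ι → ℝ) {η : ℝ} (hη : 0 < η)
    (hp : ∀ i ∈ s, η ≤ p i ∧ η ≤ 1 - p i) (m : ℕ) (hη2 : 2 * η ≤ 1) (c : ℕ → ℝ)
    (hc0 : ∀ M, 0 ≤ c M) (hc : ∀ M j : ℕ, (M.choose j : ℝ) ≤ 2 ^ M * c M) :
    (∏ i ∈ s, gp (p i)).coeff m ≤ ∑ k ∈ range (s.card + 1), (s.card.choose k : ℝ) *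
      (2 * η) ^ k * (1 - 2 * η) ^ (s.card - k) * c k := by
  classical
  set A : ι → ℝ[X] := fun i => C (1 - p i - η) + C (p i - η) * X with hA
  set B : ι → ℝ[X] := fun _ => C η * (1 + X) with hB
  have h1 : ∀ i ∈ s, gp (p i) = A i + B i := by
    intro i _
    simp only [gp, hA, hB, C_sub, C_1]
    ring
  rw [prod_congr rfl h1, prod_add, finsetSum_coeff]
  have hq : (0 : ℝ) ≤ 1 - 2 * η := by linarith
  have h2 : ∀ t ∈ s.powerset, ((∏ i ∈ t, A i) * ∏ i ∈ s \ t, B i).coeff m ≤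
      (2 * η) ^ (s.card - t.card) * (1 - 2 * η) ^ t.card * c (s.card - t.card) := by
    intro t ht
    rw [mem_powerset] at ht
    have h3 : ∏ i ∈ s \ t, B i = C (η ^ (s.card - t.card)) * (1 + X) ^ (s.card - t.card) := by
      rw [prod_const, card_sdiff_of_subset ht, mul_pow, C_pow]
    have h4 : ∀ j, 0 ≤ (∏ i ∈ t, A i).coeff j := by
      refine coeff_prod_nonneg t A fun i hi j => ?_
      have h5 := hp i (ht hi)
      simp only [hA, coeff_add, coeff_C_mul, coeff_X, coeff_C]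
      split_ifs <;> simp <;> linarith
    have h5 : (∏ i ∈ t, A i).eval 1 = (1 - 2 * η) ^ t.card := by
      rw [eval_prod, ← prod_const]
      refine prod_congr rfl fun i _ => ?_
      simp only [hA, eval_add, eval_mul, eval_C, eval_X]
      ring
    have h6 := coeff_mul_le (f := ∏ i ∈ t, A i)
      (h := C (η ^ (s.card - t.card)) * (1 + X) ^ (s.card - t.card))
      (c := (2 * η) ^ (s.card - t.card) * c (s.card - t.card))
      h4 (mul_nonneg (by positivity) (hc0 _)) (fun j => by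
        rw [coeff_C_mul, coeff_one_add_X, mul_pow, mul_comm (2 ^ _) (η ^ _), mul_assoc]
        exact mul_le_mul_of_nonneg_left (hc _ _) (by positivity)) m
    rw [h3]
    refine h6.trans (le_of_eq ?_)
    rw [h5]
    ring
  refine (sum_le_sum h2).trans ?_
  have h3 := sum_powerset_apply_card (x := s) (fun k => (2 * η) ^ (s.card - k) *
    (1 - 2 * η) ^ k * c (s.card - k))
  rw [h3, ← sum_range_reflect]
  refine le_of_eq (sum_congr rfl fun k hk => ?_)
  rw [mem_range] at hk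
  have h4 : s.card + 1 - 1 - k = s.card - k := by omega
  have h5 : s.card - (s.card - k) = k := by omega
  rw [h4, h5, nsmul_eq_mul, Nat.choose_symm (by omega)]
  ring

/-- Anticoncentration, simple form. -/
theorem coeff_prod_le_sqrt {ι : Type} (s : Finset ι) (p : ι → ℝ) {η : ℝ} (hη : 0 < η)
    (hp : ∀ i ∈ s, η ≤ p i ∧ η ≤ 1 - p i) (m : ℕ) (hη2 : 2 * η ≤ 1) :
    (∏ i ∈ s, gp (p i)).coeff m ≤ Real.sqrt (1 / ((s.card + 1) * (2 * η))) := by
  refine (coeff_prod_le s p hη hp m hη2 (fun M => Real.sqrt ((M : ℝ) + 1)⁻¹)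
    (fun M => Real.sqrt_nonneg _) fun M j => ?_).trans ?_
  · have := choose_le_sqrt M j
    rwa [div_eq_mul_inv, ← Real.sqrt_inv] at this
  · exact sum_sqrt (by positivity) hη2 s.card (fun M => ((M : ℝ) + 1)⁻¹)
      (fun M => by positivity) (by positivity) (sum_inv_succ (by positivity) hη2 s.card)

/-! ### the sharp constant -/

/-- the central binomial probability -/
noncomputable def cb (a : ℕ) : ℝ := (Nat.centralBinom a : ℝ) / 4 ^ a

theorem cb_succ (a : ℕ) : cb (a + 1) = (2 * a + 1) / (2 * (a + 1)) * cb a := by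
  unfold cb
  have h := Nat.succ_mul_centralBinom_succ a
  have h' : ((a : ℝ) + 1) * (Nat.centralBinom (a + 1) : ℝ) =
      2 * (2 * a + 1) * (Nat.centralBinom a : ℝ) := by exact_mod_cast h
  have h1 : (Nat.centralBinom (a + 1) : ℝ) =
      2 * (2 * a + 1) * (Nat.centralBinom a : ℝ) / ((a : ℝ) + 1) := by
    rw [eq_div_iff (by positivity), mul_comm]
    exact h'
  rw [h1, pow_succ]
  field_simp
  ring

theorem cb_wallis (a : ℕ) : (cb a) ^ 2 * (2 * a + 1) * Real.Wallis.W a = 1 := by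
  induction a with
  | zero => simp [cb, Real.Wallis.W]
  | succ a ih =>
    rw [cb_succ, Real.Wallis.W_succ]
    push_cast
    have h1 : (2 : ℝ) * a + 1 ≠ 0 := by positivity
    have h2 : (2 : ℝ) * a + 3 ≠ 0 := by positivity
    have h3 : ((2 * (a : ℝ) + 1) / (2 * (a + 1)) * cb a) ^ 2 * (2 * (a + 1) + 1) *
        (Real.Wallis.W a * ((2 * a + 2) / (2 * a + 1) * ((2 * a + 2) / (2 * a + 3)))) =
        (cb a) ^ 2 * (2 * a + 1) * Real.Wallis.W a := by
      field_simp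
      ring
    rw [h3, ih]

theorem cb_le (a : ℕ) : (cb a) ^ 2 * (a + 1 / 4) ≤ 1 / Real.pi := by
  have hmono : Monotone fun a : ℕ => (cb a) ^ 2 * ((a : ℝ) + 1 / 4) := by
    refine monotone_nat_of_le_succ fun a => ?_
    rw [cb_succ]
    push_cast
    have h1 : ((2 * (a : ℝ) + 1) / (2 * (a + 1)) * cb a) ^ 2 * (a + 1 + 1 / 4) =
        (cb a) ^ 2 * (((2 * a + 1) / (2 * (a + 1))) ^ 2 * (a + 1 + 1 / 4)) := by ring
    rw [h1]
    refine mul_le_mul_of_nonneg_left ?_ (by positivity)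
    rw [div_pow, div_mul_eq_mul_div, le_div_iff₀ (by positivity)]
    nlinarith [Nat.cast_nonneg (α := ℝ) a]
  have hlim : Filter.Tendsto (fun a : ℕ => (cb a) ^ 2 * ((a : ℝ) + 1 / 4)) Filter.atTop
      (nhds (1 / Real.pi)) := by
    have h1 : ∀ a : ℕ, (cb a) ^ 2 * ((a : ℝ) + 1 / 4) =
        (1 / 2 - 1 / 4 * ((2 * a + 1 : ℕ) : ℝ)⁻¹) / Real.Wallis.W a := by
      intro a
      have hW : Real.Wallis.W a ≠ 0 := (Real.Wallis.W_pos a).ne'
      have h2 := cb_wallis a
      have h3 : (2 : ℝ) * a + 1 ≠ 0 := by positivity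
      have h4 : (cb a) ^ 2 = 1 / ((2 * a + 1) * Real.Wallis.W a) := by
        rw [eq_div_iff (mul_ne_zero h3 hW)]
        linarith
      rw [h4]
      push_cast
      field_simp
      ring
    rw [show (1 / Real.pi : ℝ) = (1 / 2 - 1 / 4 * 0) / (Real.pi / 2) by
      have := Real.pi_ne_zero
      rw [mul_zero, sub_zero]
      field_simp]
    rw [show (fun a : ℕ => (cb a) ^ 2 * ((a : ℝ) + 1 / 4)) = fun a : ℕ =>
      (1 / 2 - 1 / 4 * ((2 * a + 1 : ℕ) : ℝ)⁻¹) / Real.Wallis.W a from funext h1]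
    refine Filter.Tendsto.div ?_ Real.Wallis.tendsto_W_nhds_pi_div_two
      (by have := Real.pi_pos; positivity)
    refine tendsto_const_nhds.sub (Filter.Tendsto.const_mul _ ?_)
    have h5 : Filter.Tendsto (fun a : ℕ => 2 * a + 1) Filter.atTop Filter.atTop :=
      Filter.tendsto_atTop_mono (fun a => by
        show a ≤ 2 * a + 1
        omega) Filter.tendsto_id
    exact (tendsto_inv_atTop_nhds_zero_nat (𝕜 := ℝ)).comp h5
  exact hmono.ge_of_tendsto hlim a

theorem choose_le_pi (M j : ℕ) :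
    (M.choose j : ℝ) ≤ 2 ^ M * Real.sqrt (2 / Real.pi * ((M : ℝ) + 1 / 2)⁻¹) := by
  have hpi := Real.pi_pos
  have key : ∀ (b : ℕ) (x y : ℝ), 0 ≤ x → 0 < y → y / 2 ≤ (b : ℝ) + 1 / 4 →
      x = 2 ^ M * cb b → x ≤ 2 ^ M * Real.sqrt (2 / Real.pi * y⁻¹) := by
    intro b x y hx hy hb hxy
    rw [hxy]
    refine mul_le_mul_of_nonneg_left ?_ (by positivity)
    refine Real.le_sqrt_of_sq_le ?_
    have h1 := cb_le b
    have h2 : (cb b) ^ 2 * (y / 2) ≤ 1 / Real.pi :=
      (mul_le_mul_of_nonneg_left hb (by positivity)).trans h1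
    have h3 : 2 / Real.pi * y⁻¹ = (1 / Real.pi) / (y / 2) := by
      field_simp
    rw [h3, le_div_iff₀ (by positivity)]
    exact h2
  have h0 : (M.choose j : ℝ) ≤ (M.choose (M / 2) : ℝ) := by
    exact_mod_cast Nat.choose_le_middle j M
  refine h0.trans ?_
  rcases Nat.even_or_odd' M with ⟨a, ha | ha⟩
  · have h1 : M / 2 = a := by omega
    rw [h1]
    refine key a _ _ (by positivity) (by positivity) ?_ ?_
    · rw [ha]
      push_cast
      linarith
    · unfold cb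
      have h2 : ((2 : ℝ) ^ M) = 4 ^ a := by
        rw [ha, pow_mul]
        norm_num
      rw [h2, mul_div_cancel₀ _ (by positivity), ha, Nat.centralBinom_eq_two_mul_choose]
  · have h1 : M / 2 = a := by omega
    rw [h1]
    refine key (a + 1) _ _ (by positivity) (by positivity) ?_ ?_
    · rw [ha]
      push_cast
      linarith
    · unfold cb
      have h2 : ((4 : ℝ) ^ (a + 1)) = 2 * 2 ^ M := by
        rw [ha, ← pow_succ', show 2 * a + 1 + 1 = 2 * (a + 1) by ring, pow_mul]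
        norm_num
      have h3 : Nat.centralBinom (a + 1) = 2 * (2 * a + 1).choose a := by
        have h5 : (2 * a + 1).choose (a + 1) = (2 * a + 1).choose a :=
          Nat.choose_symm_of_eq_add (by omega)
        rw [Nat.centralBinom_eq_two_mul_choose, show 2 * (a + 1) = 2 * a + 1 + 1 by ring,
          Nat.choose_succ_succ, Nat.succ_eq_add_one, h5]
        ring
      rw [h2, h3, ha]
      push_cast
      have h6 : (2 : ℝ) ^ (2 * a + 1) ≠ 0 := by positivity
      field_simp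

/-- Anticoncentration with the sharp constant. -/
theorem coeff_prod_le_pi {ι : Type} (s : Finset ι) (p : ι → ℝ) {η : ℝ} (hη : 0 < η)
    (hp : ∀ i ∈ s, η ≤ p i ∧ η ≤ 1 - p i) (m : ℕ) (hη2 : 2 * η ≤ 1) :
    (∏ i ∈ s, gp (p i)).coeff m ≤ Real.sqrt (2 / Real.pi * (1 / ((s.card + 1) * (2 * η)) +
      2 * (1 / ((s.card + 1) * (s.card + 2) * (2 * η) ^ 2)))) := by
  have hpi := Real.pi_pos
  refine (coeff_prod_le s p hη hp m hη2
    (fun M => Real.sqrt (2 / Real.pi * ((M : ℝ) + 1 / 2)⁻¹))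
    (fun M => Real.sqrt_nonneg _) fun M j => choose_le_pi M j).trans ?_
  refine sum_sqrt (by positivity) hη2 s.card (fun M => 2 / Real.pi * ((M : ℝ) + 1 / 2)⁻¹)
    (fun M => by positivity) (by positivity) ?_
  have h1 := mul_le_mul_of_nonneg_left (sum_inv_half (p := 2 * η) (by positivity) hη2 s.card)
    (by positivity : (0 : ℝ) ≤ 2 / Real.pi)
  refine le_trans (le_of_eq ?_) h1
  rw [mul_sum]
  refine sum_congr rfl fun M _ => ?_
  ring

/-! ### small parameters -/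

theorem gp_nonneg {p : ℝ} (h0 : 0 ≤ p) (h1 : p ≤ 1) (j : ℕ) : 0 ≤ (gp p).coeff j := by
  unfold gp
  simp only [coeff_add, coeff_C_mul, coeff_X, coeff_C]
  split_ifs <;> simp <;> linarith

theorem coeff_small {ι : Type} (s : Finset ι) (p : ι → ℝ) {u : ℝ} (hu : 0 ≤ u)
    (hp : ∀ i ∈ s, 0 ≤ p i ∧ p i ≤ 1 ∧ p i ≤ u) (m : ℕ) :
    (∏ i ∈ s, gp (p i)).coeff m ≤ (s.card.choose m : ℝ) * u ^ m := by
  classical
  induction s using Finset.induction_on generalizing m with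
  | empty =>
    rw [prod_empty, coeff_one]
    rcases m with - | m
    · simp
    · rw [if_neg (by omega)]
      positivity
  | insert a s ha ih =>
    have ih' := ih fun i hi => hp i (mem_insert_of_mem hi)
    have hnn := coeff_prod_nonneg s (fun i => gp (p i)) fun i hi j =>
      gp_nonneg (hp i (mem_insert_of_mem hi)).1 (hp i (mem_insert_of_mem hi)).2.1 j
    obtain ⟨h0, h1, h2⟩ := hp a (mem_insert_self _ _)
    rw [prod_insert ha, card_insert_of_notMem ha]
    rcases m with - | m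
    · rw [coeff_gp_mul_zero]
      have h3 := ih' 0
      simp only [Nat.choose_zero_right, Nat.cast_one, pow_zero, mul_one] at h3 ⊢
      nlinarith [hnn 0]
    · rw [coeff_gp_mul_succ, Nat.choose_succ_succ]
      have h3 := ih' (m + 1)
      have h4 := ih' m
      have h5 : (1 - p a) * (∏ i ∈ s, gp (p i)).coeff (m + 1) ≤
          (s.card.choose (m + 1) : ℝ) * u ^ (m + 1) := by
        nlinarith [hnn (m + 1)]
      have h6 : p a * (∏ i ∈ s, gp (p i)).coeff m ≤ u * ((s.card.choose m : ℝ) * u ^ m) :=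
        mul_le_mul h2 h4 (hnn m) hu
      push_cast
      calc (1 - p a) * (∏ i ∈ s, gp (p i)).coeff (m + 1) + p a * (∏ i ∈ s, gp (p i)).coeff m
          ≤ (s.card.choose (m + 1) : ℝ) * u ^ (m + 1) + u * ((s.card.choose m : ℝ) * u ^ m) :=
            add_le_add h5 h6
        _ = ((s.card.choose m : ℝ) + (s.card.choose (m + 1) : ℝ)) * u ^ (m + 1) := by ring

theorem coeff_small' {ι : Type} (s : Finset ι) (p : ι → ℝ) {u : ℝ} (hu : 0 ≤ u)
    (hp : ∀ i ∈ s, 0 ≤ p i ∧ p i ≤ 1 ∧ 1 - p i ≤ u) (m : ℕ) :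
    (∏ i ∈ s, gp (p i)).coeff m * u ^ m ≤ (s.card.choose m : ℝ) * u ^ s.card := by
  classical
  induction s using Finset.induction_on generalizing m with
  | empty =>
    rw [prod_empty, coeff_one]
    rcases m with - | m
    · simp
    · rw [if_neg (by omega)]
      simp
  | insert a s ha ih =>
    have ih' := ih fun i hi => hp i (mem_insert_of_mem hi)
    have hnn := coeff_prod_nonneg s (fun i => gp (p i)) fun i hi j =>
      gp_nonneg (hp i (mem_insert_of_mem hi)).1 (hp i (mem_insert_of_mem hi)).2.1 j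
    obtain ⟨h0, h1, h2⟩ := hp a (mem_insert_self _ _)
    rw [prod_insert ha, card_insert_of_notMem ha]
    rcases m with - | m
    · rw [coeff_gp_mul_zero]
      have h3 := ih' 0
      simp only [Nat.choose_zero_right, Nat.cast_one, pow_zero, mul_one, one_mul] at h3 ⊢
      rw [pow_succ']
      exact mul_le_mul h2 h3 (hnn 0) hu
    · rw [coeff_gp_mul_succ, Nat.choose_succ_succ]
      have h3 := ih' (m + 1)
      have h4 := ih' m
      have h5 : (1 - p a) * ((∏ i ∈ s, gp (p i)).coeff (m + 1) * u ^ (m + 1)) ≤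
          u * ((s.card.choose (m + 1) : ℝ) * u ^ s.card) :=
        mul_le_mul h2 h3 (mul_nonneg (hnn (m + 1)) (by positivity)) hu
      have h6 : (p a * u) * ((∏ i ∈ s, gp (p i)).coeff m * u ^ m) ≤
          u * ((s.card.choose m : ℝ) * u ^ s.card) := by
        refine mul_le_mul ?_ h4 (mul_nonneg (hnn m) (by positivity)) hu
        nlinarith
      push_cast
      calc ((1 - p a) * (∏ i ∈ s, gp (p i)).coeff (m + 1) +
            p a * (∏ i ∈ s, gp (p i)).coeff m) * u ^ (m + 1)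
          = (1 - p a) * ((∏ i ∈ s, gp (p i)).coeff (m + 1) * u ^ (m + 1)) +
            (p a * u) * ((∏ i ∈ s, gp (p i)).coeff m * u ^ m) := by ring
        _ ≤ u * ((s.card.choose (m + 1) : ℝ) * u ^ s.card) +
            u * ((s.card.choose m : ℝ) * u ^ s.card) := add_le_add h5 h6
        _ = ((s.card.choose m : ℝ) + (s.card.choose (m + 1) : ℝ)) * u ^ (s.card + 1) := by ring

end Pool.Agent.Helper77.VoteSqrt
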