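import Pool.Agent.Helper55.Vote.Crit
import Pool.Agent.Helper77.VoteSqrt.Anti

/-! One step contraction of the discrepancy of the noisy majority voting. -/

set_option autoImplicit false

namespace Pool.Agent.Helper77.VoteSqrt

open MeasureTheory Set ProbabilityTheory Pool.Agent.Helper55.Vote

/-- A pivotal element. -/
theorem exists_pivot (S : Finset ℤ) (x y : ℤ → Bool) (m : ℕ)
    (hx : (S.filter fun j => x j = true).card ≤ m)
    (hy : m < (S.filter fun j => y j = true).card) :
    ∃ i ∈ S, x i = false ∧ y i = true ∧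
      ((S.erase i).filter fun j => (if j < i then y j else x j) = true).card = m := by
  classical
  induction S using Finset.induction_on_max generalizing m with
  | empty => simp at hy
  | insert b S hb ih =>
    have hbS : b ∉ S := fun h => lt_irrefl _ (hb b h)
    rw [Finset.filter_insert] at hx hy
    have hne : ∀ z : ℤ → Bool, b ∉ S.filter fun j => z j = true := fun z h =>
      hbS (Finset.mem_filter.mp h).1
    have step1 : ∀ m' : ℕ, (S.filter fun j => x j = true).card ≤ m' →
        m' < (S.filter fun j => y j = true).card → m' + (if x b = true then 1 else 0) = m →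
        ∃ i ∈ insert b S, x i = false ∧ y i = true ∧
          (((insert b S).erase i).filter fun j => (if j < i then y j else x j) = true).card =
            m := by
      intro m' h1 h2 h3
      obtain ⟨i, hi, hxi, hyi, hc⟩ := ih m' h1 h2
      refine ⟨i, Finset.mem_insert_of_mem hi, hxi, hyi, ?_⟩
      have hbi : i < b := hb i hi
      have h4 : (insert b S).erase i = insert b (S.erase i) :=
        Finset.erase_insert_of_ne hbi.ne'
      rw [h4, Finset.filter_insert, if_neg (not_lt.mpr hbi.le)]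
      by_cases hxb : x b = true
      · rw [if_pos hxb] at h3 ⊢
        rw [Finset.card_insert_of_notMem, hc, h3]
        intro h
        exact hbS (Finset.mem_of_mem_erase (Finset.mem_filter.mp h).1)
      · rw [if_neg hxb] at h3 ⊢
        rw [hc, ← h3, add_zero]
    have step2 : x b = false → y b = true → (S.filter fun j => y j = true).card = m →
        ∃ i ∈ insert b S, x i = false ∧ y i = true ∧
          (((insert b S).erase i).filter fun j => (if j < i then y j else x j) = true).card =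
            m := by
      intro h1 h2 h3
      refine ⟨b, Finset.mem_insert_self _ _, h1, h2, ?_⟩
      rw [Finset.erase_insert hbS, ← h3]
      congr 1
      refine Finset.filter_congr fun j hj => ?_
      rw [if_pos (hb j hj)]
    by_cases hxb : x b = true
    · rw [if_pos hxb, Finset.card_insert_of_notMem (hne x)] at hx
      by_cases hyb : y b = true
      · rw [if_pos hyb, Finset.card_insert_of_notMem (hne y)] at hy
        refine step1 (m - 1) (by omega) (by omega) ?_
        rw [if_pos hxb]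
        omega
      · rw [if_neg hyb] at hy
        refine step1 (m - 1) (by omega) (by omega) ?_
        rw [if_pos hxb]
        omega
    · rw [if_neg hxb] at hx
      have hxb' : x b = false := by simpa using hxb
      by_cases hyb : y b = true
      · rw [if_pos hyb, Finset.card_insert_of_notMem (hne y)] at hy
        by_cases h5 : m < (S.filter fun j => y j = true).card
        · refine step1 m hx h5 ?_
          rw [if_neg hxb]
          rfl
        · exact step2 hxb' hyb (by omega)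
      · rw [if_neg hyb] at hy
        refine step1 m hx hy ?_
        rw [if_neg hxb]
        rfl

section prob

variable (μ₀ : Measure (Option Bool)) [IsProbabilityMeasure μ₀]

/-- the number of ones after one step -/
def cnt (S : Finset ℤ) (k : ℤ) (a : ℤ → Bool) (m : ℕ) : Set Om :=
  {ω | (S.filter fun j => (ω (j, k)).getD (a j) = true).card = m}

theorem cnt_FL (S : Finset ℤ) (k : ℤ) (a : ℤ → Bool) (m : ℕ) :
    FL ((fun j => (j, k)) '' (S : Set ℤ)) (cnt S k a m) := by
  classical
  refine ⟨S.image fun j => (j, k), by rw [Finset.coe_image], ?_⟩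
  intro ω ω' h hω
  have h1 : (S.filter fun j => (ω' (j, k)).getD (a j) = true) =
      S.filter fun j => (ω (j, k)).getD (a j) = true :=
    Finset.filter_congr fun j hj => by rw [h _ (Finset.mem_image_of_mem _ hj)]
  show (S.filter fun j => (ω' (j, k)).getD (a j) = true).card = m
  rw [h1]
  exact hω

/-- the law of the number of ones after one step -/
theorem prob_cnt (S : Finset ℤ) (k : ℤ) (a : ℤ → Bool) (m : ℕ) :
    (Pm μ₀).real (cnt S k a m) =
      (∏ j ∈ S, gp (μ₀.real {o | o.getD (a j) = true})).coeff m := by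
  classical
  induction S using Finset.induction_on generalizing m with
  | empty =>
    rw [Finset.prod_empty, Polynomial.coeff_one]
    by_cases hm : m = 0
    · rw [if_pos hm]
      have : cnt ∅ k a m = Set.univ := by
        ext ω
        simp [cnt, hm]
      rw [this]
      simp
    · rw [if_neg hm]
      have : cnt ∅ k a m = ∅ := by
        ext ω
        simp only [cnt, Finset.filter_empty, Finset.card_empty, mem_ofPred_eq,
          mem_empty_iff_false, iff_false]
        exact fun h => hm h.symm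
      rw [this]
      simp
  | insert i S hi ih =>
    rw [Finset.prod_insert hi]
    have hd : Disjoint ({(i, k)} : Set (ℤ × ℤ)) ((fun j => (j, k)) '' (S : Set ℤ)) := by
      rw [Set.disjoint_singleton_left]
      rintro ⟨j, hj, he⟩
      simp only [Prod.mk.injEq, and_true] at he
      exact hi (he ▸ hj)
    have hA1 : FL {(i, k)} {ω : Om | ω (i, k) ∈ {o : Option Bool | o.getD (a i) = true}} :=
      FL.single _ (mem_singleton _) _
    have hA0 : FL {(i, k)} {ω : Om | ω (i, k) ∈ {o : Option Bool | o.getD (a i) = true}ᶜ} :=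
      FL.single _ (mem_singleton _) _
    have hp1 : (Pm μ₀).real {ω : Om | ω (i, k) ∈ {o : Option Bool | o.getD (a i) = true}} =
        μ₀.real {o | o.getD (a i) = true} := prob_single μ₀ _ _
    have hp0 : (Pm μ₀).real {ω : Om | ω (i, k) ∈ {o : Option Bool | o.getD (a i) = true}ᶜ} =
        1 - μ₀.real {o | o.getD (a i) = true} := by
      rw [prob_single μ₀ (i, k), probReal_compl_eq_one_sub (Set.toFinite _).measurableSet]
    have hcard : ∀ ω : Om, ((insert i S).filter fun j => (ω (j, k)).getD (a j) = true).card =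
        (S.filter fun j => (ω (j, k)).getD (a j) = true).card +
          if (ω (i, k)).getD (a i) = true then 1 else 0 := by
      intro ω
      rw [Finset.filter_insert]
      by_cases h : (ω (i, k)).getD (a i) = true
      · rw [if_pos h, if_pos h, Finset.card_insert_of_notMem]
        intro h'
        exact hi (Finset.mem_filter.mp h').1
      · rw [if_neg h, if_neg h, add_zero]
    rcases m with - | m
    · rw [coeff_gp_mul_zero, ← ih 0, ← hp0, ← hA0.indep μ₀ (cnt_FL S k a 0) hd]
      congr 1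
      ext ω
      show ((insert i S).filter fun j => (ω (j, k)).getD (a j) = true).card = 0 ↔
        ¬ ((ω (i, k)).getD (a i) = true) ∧ (S.filter fun j => (ω (j, k)).getD (a j) = true).card = 0
      rw [hcard]
      split_ifs with h
      · simp [h]
      · simp [h]
    · rw [coeff_gp_mul_succ, ← ih m, ← ih (m + 1), ← hp0, ← hp1,
        ← hA0.indep μ₀ (cnt_FL S k a (m + 1)) hd, ← hA1.indep μ₀ (cnt_FL S k a m) hd]
      have hdis : Disjoint ({ω : Om | ω (i, k) ∈ {o : Option Bool | o.getD (a i) = true}ᶜ} ∩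
          cnt S k a (m + 1)) ({ω : Om | ω (i, k) ∈ {o : Option Bool | o.getD (a i) = true}} ∩
          cnt S k a m) := by
        rw [Set.disjoint_left]
        rintro ω ⟨h1, -⟩ ⟨h2, -⟩
        exact h1 h2
      rw [← measureReal_union hdis (hA1.meas.inter (cnt_FL S k a m).meas)]
      congr 1
      ext ω
      show ((insert i S).filter fun j => (ω (j, k)).getD (a j) = true).card = m + 1 ↔
        (¬ ((ω (i, k)).getD (a i) = true) ∧
          (S.filter fun j => (ω (j, k)).getD (a j) = true).card = m + 1) ∨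
        ((ω (i, k)).getD (a i) = true ∧
          (S.filter fun j => (ω (j, k)).getD (a j) = true).card = m)
      rw [hcard]
      split_ifs with h
      · simp [h]
      · simp [h]

variable (N : Finset ℤ)

/-- the two extremal processes -/
abbrev lo (ω : Om) (t : ℕ) : ℤ → Bool := run N ω 0 (fun _ => false) t

/-- the two extremal processes -/
abbrev hi (ω : Om) (t : ℕ) : ℤ → Bool := run N ω 0 (fun _ => true) t

theorem lo_le_hi (ω : Om) (t : ℕ) (s : ℤ) : lo N ω t s ≤ hi N ω t s :=
  run_mono N ω 0 (fun _ => Bool.le_true _) t s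

/-- the event that the site `i` is discrepant at time `t + 1` and pivotal -/
def Piv (m t : ℕ) (i : ℤ) : Set Om :=
  {ω | lo N ω (t + 1) i = false ∧ hi N ω (t + 1) i = true ∧
    ((N.erase i).filter fun j =>
      (if j < i then hi N ω (t + 1) j else lo N ω (t + 1) j) = true).card = m}

theorem Dis_subset {m : ℕ} (hm : N.card = 2 * m + 1) (t : ℕ) :
    Dis N (t + 2) 0 ⊆ ⋃ i ∈ N, ({ω : Om | ω (0, ((t + 1 : ℕ) : ℤ)) ∈ ({none} : Set (Option Bool))} ∩
      Piv N m t i) := by
  intro ω hω
  have h1 : (ω (0, 0 + ((t + 1 : ℕ) : ℤ))).getD (maj N (hi N ω (t + 1)) 0) ≠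
      (ω (0, 0 + ((t + 1 : ℕ) : ℤ))).getD (maj N (lo N ω (t + 1)) 0) := hω
  rw [zero_add] at h1
  have hnone : ω (0, ((t + 1 : ℕ) : ℤ)) = none := by
    rcases h : ω (0, ((t + 1 : ℕ) : ℤ)) with - | b
    · rfl
    · rw [h] at h1
      exact absurd rfl h1
  rw [hnone, Option.getD_none, Option.getD_none] at h1
  have h2 := maj_mono N (lo_le_hi N ω (t + 1)) 0
  have h3 : maj N (lo N ω (t + 1)) 0 = false ∧ maj N (hi N ω (t + 1)) 0 = true := by
    revert h1 h2
    cases maj N (lo N ω (t + 1)) 0 <;> cases maj N (hi N ω (t + 1)) 0 <;> simp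
  unfold maj at h3
  rw [decide_eq_false_iff_not, decide_eq_true_eq, hm] at h3
  simp only [zero_add] at h3
  obtain ⟨i, hi, h4, h5, h6⟩ := exists_pivot N (lo N ω (t + 1)) (hi N ω (t + 1)) m
    (by omega) (by omega)
  rw [mem_iUnion₂]
  exact ⟨i, hi, hnone, h4, h5, h6⟩

theorem run_dep (x : ℤ → Bool) (t : ℕ) (S : Finset ℤ) : ∃ J : Finset (ℤ × ℤ),
    (J : Set (ℤ × ℤ)) ⊆ {c | c.2 < t} ∧ ∀ ω ω' : Om, (∀ c ∈ J, ω c = ω' c) →
      ∀ s ∈ S, run N ω 0 x t s = run N ω' 0 x t s := by
  classical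
  have h : ∀ s ∈ S, ∃ J : Finset (ℤ × ℤ), (J : Set (ℤ × ℤ)) ⊆ {c | c.2 < t} ∧
      ∀ ω ω' : Om, (∀ c ∈ J, ω c = ω' c) → run N ω 0 x t s = true →
        run N ω' 0 x t s = true := fun s _ =>
    (FL.run N 0 x t s true).mono (by
      intro c hc
      have h2 := hc.2
      rw [zero_add] at h2
      exact h2)
  choose! J h1 h2 using h
  refine ⟨S.biUnion J, ?_, ?_⟩
  · intro c hc
    rw [Finset.mem_coe, Finset.mem_biUnion] at hc
    obtain ⟨s, hs, hc⟩ := hc
    exact h1 s hs hc
  · intro ω ω' h s hs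
    have h3 : ∀ c ∈ J s, ω c = ω' c := fun c hc => h c (Finset.mem_biUnion.mpr ⟨s, hs, hc⟩)
    rw [Bool.eq_iff_iff]
    exact ⟨h2 s hs ω ω' h3, h2 s hs ω' ω fun c hc => (h3 c hc).symm⟩

theorem maj_dep (x : ℤ → Bool) (t : ℕ) (S : Finset ℤ) : ∃ J : Finset (ℤ × ℤ),
    (J : Set (ℤ × ℤ)) ⊆ {c | c.2 < t} ∧ ∀ ω ω' : Om, (∀ c ∈ J, ω c = ω' c) →
      ∀ s ∈ S, maj N (run N ω 0 x t) s = maj N (run N ω' 0 x t) s := by
  classical
  obtain ⟨J, h1, h2⟩ := run_dep N x t (S.biUnion fun s => N.image fun v => s + v)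
  refine ⟨J, h1, fun ω ω' h s hs => ?_⟩
  unfold maj
  have h3 : (N.filter fun j => run N ω 0 x t (s + j) = true) =
      N.filter fun j => run N ω' 0 x t (s + j) = true := Finset.filter_congr fun j hj => by
    rw [h2 ω ω' h (s + j) (Finset.mem_biUnion.mpr ⟨s, hs, Finset.mem_image_of_mem _ hj⟩)]
  rw [h3]

/-- the pattern before the step -/
def Pat (t : ℕ) (i : ℤ) (U : Finset ℤ) : Set Om :=
  {ω | maj N (hi N ω t) i ≠ maj N (lo N ω t) i ∧ ((N.erase i).filter fun j =>
    (if j < i then maj N (hi N ω t) j else maj N (lo N ω t) j) = true) = U}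

theorem Pat_FL (t : ℕ) (i : ℤ) (U : Finset ℤ) : FL {c | c.2 < t} (Pat N t i U) := by
  classical
  obtain ⟨J, h1, h2⟩ := maj_dep N (fun _ => true) t (insert i N)
  obtain ⟨J', h1', h2'⟩ := maj_dep N (fun _ => false) t (insert i N)
  refine ⟨J ∪ J', ?_, ?_⟩
  · rw [Finset.coe_union]
    exact Set.union_subset h1 h1'
  · rintro ω ω' h ⟨h3, h4⟩
    have e1 := h2 ω ω' fun c hc => h c (Finset.mem_union_left _ hc)
    have e2 := h2' ω ω' fun c hc => h c (Finset.mem_union_right _ hc)
    refine ⟨?_, ?_⟩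
    · show maj N (run N ω' 0 (fun _ => true) t) i ≠ maj N (run N ω' 0 (fun _ => false) t) i
      rw [← e1 i (Finset.mem_insert_self _ _), ← e2 i (Finset.mem_insert_self _ _)]
      exact h3
    · rw [← h4]
      refine Finset.filter_congr fun j hj => ?_
      show ((if j < i then maj N (run N ω' 0 (fun _ => true) t) j
        else maj N (run N ω' 0 (fun _ => false) t) j) = true) ↔ _
      have hj' : j ∈ insert i N := Finset.mem_insert_of_mem (Finset.mem_of_mem_erase hj)
      rw [← e1 j hj', ← e2 j hj']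

theorem Piv_FL (m t : ℕ) (i : ℤ) : FL {c | c.2 < ((t + 1 : ℕ) : ℤ)} (Piv N m t i) := by
  classical
  obtain ⟨J, h1, h2⟩ := run_dep N (fun _ => true) (t + 1) (insert i N)
  obtain ⟨J', h1', h2'⟩ := run_dep N (fun _ => false) (t + 1) (insert i N)
  refine ⟨J ∪ J', ?_, ?_⟩
  · rw [Finset.coe_union]
    exact Set.union_subset h1 h1'
  · rintro ω ω' h ⟨h3, h4, h5⟩
    have e1 := h2 ω ω' fun c hc => h c (Finset.mem_union_left _ hc)
    have e2 := h2' ω ω' fun c hc => h c (Finset.mem_union_right _ hc)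
    refine ⟨?_, ?_, ?_⟩
    · show run N ω' 0 (fun _ => false) (t + 1) i = false
      rw [← e2 i (Finset.mem_insert_self _ _)]
      exact h3
    · show run N ω' 0 (fun _ => true) (t + 1) i = true
      rw [← e1 i (Finset.mem_insert_self _ _)]
      exact h4
    · rw [← h5]
      congr 1
      refine Finset.filter_congr fun j hj => ?_
      show ((if j < i then run N ω' 0 (fun _ => true) (t + 1) j
        else run N ω' 0 (fun _ => false) (t + 1) j) = true) ↔ _
      have hj' : j ∈ insert i N := Finset.mem_insert_of_mem (Finset.mem_of_mem_erase hj)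
      rw [← e1 j hj', ← e2 j hj']

theorem Piv_subset (m t : ℕ) (i : ℤ) : Piv N m t i ⊆ ⋃ U ∈ (N.erase i).powerset,
    ((Pat N t i U ∩ {ω : Om | ω (i, (t : ℤ)) ∈ ({none} : Set (Option Bool))}) ∩
      cnt (N.erase i) (t : ℤ) (pat U) m) := by
  classical
  rintro ω ⟨h1, h2, h3⟩
  have e1 : ∀ j, lo N ω (t + 1) j = (ω (j, (t : ℤ))).getD (maj N (lo N ω t) j) := by
    intro j
    have : lo N ω (t + 1) j = (ω (j, 0 + (t : ℤ))).getD (maj N (lo N ω t) j) := rfl
    rwa [zero_add] at this
  have e2 : ∀ j, hi N ω (t + 1) j = (ω (j, (t : ℤ))).getD (maj N (hi N ω t) j) := by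
    intro j
    have : hi N ω (t + 1) j = (ω (j, 0 + (t : ℤ))).getD (maj N (hi N ω t) j) := rfl
    rwa [zero_add] at this
  rw [e1] at h1
  rw [e2] at h2
  have hnone : ω (i, (t : ℤ)) = none := by
    rcases h : ω (i, (t : ℤ)) with - | b
    · rfl
    · rw [h, Option.getD_some] at h1 h2
      rw [h1] at h2
      exact absurd h2 Bool.false_ne_true
  rw [mem_iUnion₂]
  refine ⟨(N.erase i).filter fun j =>
    (if j < i then maj N (hi N ω t) j else maj N (lo N ω t) j) = true,
    Finset.mem_powerset.mpr (Finset.filter_subset _ _), ⟨⟨?_, rfl⟩, hnone⟩, ?_⟩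
  · rw [hnone, Option.getD_none] at h1 h2
    rw [h1, h2]
    exact Bool.false_ne_true.symm
  · rw [← h3]
    show ((N.erase i).filter fun j => (ω (j, (t : ℤ))).getD (pat _ j) = true).card = _
    congr 1
    refine Finset.filter_congr fun j hj => ?_
    have h4 : pat ((N.erase i).filter fun j =>
        (if j < i then maj N (hi N ω t) j else maj N (lo N ω t) j) = true) j =
        if j < i then maj N (hi N ω t) j else maj N (lo N ω t) j := by
      unfold pat
      rw [Bool.eq_iff_iff, decide_eq_true_eq, Finset.mem_filter]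
      exact ⟨fun h => h.2, fun h => ⟨hj, h⟩⟩
    rw [h4, e1, e2]
    split_ifs <;> exact Iff.rfl

theorem Pat_none_subset (t : ℕ) (i : ℤ) (U : Finset ℤ) :
    Pat N t i U ∩ {ω : Om | ω (i, (t : ℤ)) ∈ ({none} : Set (Option Bool))} ⊆
      Dis N (t + 1) i := by
  rintro ω ⟨⟨h1, -⟩, h2⟩
  have h3 : ω (i, (t : ℤ)) = none := h2
  show (ω (i, 0 + (t : ℤ))).getD (maj N (hi N ω t) i) ≠
    (ω (i, 0 + (t : ℤ))).getD (maj N (lo N ω t) i)
  rw [zero_add, h3]
  exact h1

theorem prob_Piv {B : ℝ} (hB0 : 0 ≤ B) {m : ℕ} (hB : ∀ i ∈ N, ∀ a : ℤ → Bool,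
    (∏ j ∈ N.erase i, gp (μ₀.real {o | o.getD (a j) = true})).coeff m ≤ B) (t : ℕ) {i : ℤ}
    (hi : i ∈ N) : (Pm μ₀).real (Piv N m t i) ≤ B * D μ₀ N (t + 1) := by
  classical
  have hK : FL {(i, (t : ℤ))} {ω : Om | ω (i, (t : ℤ)) ∈ ({none} : Set (Option Bool))} :=
    FL.single _ (mem_singleton _) _
  have hPK : ∀ U, FL ({c | c.2 < (t : ℤ)} ∪ {(i, (t : ℤ))})
      (Pat N t i U ∩ {ω : Om | ω (i, (t : ℤ)) ∈ ({none} : Set (Option Bool))}) := fun U =>
    ((Pat_FL N t i U).mono subset_union_left).inter (hK.mono subset_union_right)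
  have hd : Disjoint ({c : ℤ × ℤ | c.2 < (t : ℤ)} ∪ {(i, (t : ℤ))})
      ((fun j => (j, (t : ℤ))) '' ((N.erase i : Finset ℤ) : Set ℤ)) := by
    rw [Set.disjoint_left]
    rintro c hc ⟨j, hj, rfl⟩
    rcases hc with hc | hc
    · exact lt_irrefl (t : ℤ) hc
    · rw [mem_singleton_iff, Prod.mk.injEq] at hc
      rw [Finset.mem_coe, Finset.mem_erase] at hj
      exact hj.1 hc.1
  calc (Pm μ₀).real (Piv N m t i)
      ≤ (Pm μ₀).real (⋃ U ∈ (N.erase i).powerset,
        ((Pat N t i U ∩ {ω : Om | ω (i, (t : ℤ)) ∈ ({none} : Set (Option Bool))}) ∩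
          cnt (N.erase i) (t : ℤ) (pat U) m)) := measureReal_mono (Piv_subset N m t i) (measure_ne_top _ _)
    _ ≤ ∑ U ∈ (N.erase i).powerset, (Pm μ₀).real
        ((Pat N t i U ∩ {ω : Om | ω (i, (t : ℤ)) ∈ ({none} : Set (Option Bool))}) ∩
          cnt (N.erase i) (t : ℤ) (pat U) m) := measureReal_biUnion_finset_le _ _
    _ ≤ ∑ U ∈ (N.erase i).powerset, (Pm μ₀).real
        (Pat N t i U ∩ {ω : Om | ω (i, (t : ℤ)) ∈ ({none} : Set (Option Bool))}) * B := by
        refine Finset.sum_le_sum fun U _ => ?_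
        rw [(hPK U).indep μ₀ (cnt_FL _ _ _ _) hd, prob_cnt]
        exact mul_le_mul_of_nonneg_left (hB i hi _) measureReal_nonneg
    _ = (Pm μ₀).real (⋃ U ∈ (N.erase i).powerset,
        (Pat N t i U ∩ {ω : Om | ω (i, (t : ℤ)) ∈ ({none} : Set (Option Bool))})) * B := by
        rw [← Finset.sum_mul, measureReal_biUnion_finset]
        · intro U _ V _ hUV
          rw [Function.onFun, Set.disjoint_left]
          rintro ω ⟨⟨-, h1⟩, -⟩ ⟨⟨-, h2⟩, -⟩
          exact hUV (h1.symm.trans h2)
        · exact fun U _ => (hPK U).meas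
    _ ≤ D μ₀ N (t + 1) * B := by
        refine mul_le_mul_of_nonneg_right ?_ hB0
        rw [← prob_Dis μ₀ N (t + 1) i]
        exact measureReal_mono (iUnion₂_subset fun U _ => Pat_none_subset N t i U)
    _ = B * D μ₀ N (t + 1) := mul_comm _ _

/-- the contraction -/
theorem D_step {B : ℝ} (hB0 : 0 ≤ B) {m : ℕ} (hm : N.card = 2 * m + 1)
    (hB : ∀ i ∈ N, ∀ a : ℤ → Bool,
      (∏ j ∈ N.erase i, gp (μ₀.real {o | o.getD (a j) = true})).coeff m ≤ B) (t : ℕ) :
    D μ₀ N (t + 2) ≤ (N.card * μ₀.real {none} * B) * D μ₀ N (t + 1) := by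
  classical
  have hK : FL {((0 : ℤ), ((t + 1 : ℕ) : ℤ))}
      {ω : Om | ω (0, ((t + 1 : ℕ) : ℤ)) ∈ ({none} : Set (Option Bool))} :=
    FL.single _ (mem_singleton _) _
  have hd : Disjoint ({((0 : ℤ), ((t + 1 : ℕ) : ℤ))} : Set (ℤ × ℤ))
      {c | c.2 < ((t + 1 : ℕ) : ℤ)} := by
    rw [Set.disjoint_singleton_left]
    exact fun h => lt_irrefl ((t + 1 : ℕ) : ℤ) h
  calc D μ₀ N (t + 2) = (Pm μ₀).real (Dis N (t + 2) 0) := (prob_Dis μ₀ N (t + 2) 0).symm
    _ ≤ (Pm μ₀).real (⋃ i ∈ N,
        ({ω : Om | ω (0, ((t + 1 : ℕ) : ℤ)) ∈ ({none} : Set (Option Bool))} ∩ Piv N m t i)) :=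
        measureReal_mono (Dis_subset N hm t) (measure_ne_top _ _)
    _ ≤ ∑ i ∈ N, (Pm μ₀).real
        ({ω : Om | ω (0, ((t + 1 : ℕ) : ℤ)) ∈ ({none} : Set (Option Bool))} ∩ Piv N m t i) :=
        measureReal_biUnion_finset_le _ _
    _ ≤ ∑ _i ∈ N, μ₀.real {none} * (B * D μ₀ N (t + 1)) := by
        refine Finset.sum_le_sum fun i hi => ?_
        rw [hK.indep μ₀ (Piv_FL N m t i) hd, prob_single]
        exact mul_le_mul_of_nonneg_left (prob_Piv μ₀ N hB0 hB t hi) measureReal_nonneg
    _ = (N.card * μ₀.real {none} * B) * D μ₀ N (t + 1) := by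
        rw [Finset.sum_const, nsmul_eq_mul]
        ring

omit [IsProbabilityMeasure μ₀] in
theorem D_nonneg (t : ℕ) : 0 ≤ D μ₀ N t := measureReal_nonneg

theorem D_tendsto {B : ℝ} (hB0 : 0 ≤ B) {m : ℕ} (hm : N.card = 2 * m + 1)
    (hB : ∀ i ∈ N, ∀ a : ℤ → Bool,
      (∏ j ∈ N.erase i, gp (μ₀.real {o | o.getD (a j) = true})).coeff m ≤ B)
    (h1 : N.card * μ₀.real {none} * B < 1) :
    Filter.Tendsto (fun t => D μ₀ N t) Filter.atTop (nhds 0) := by
  set ρ : ℝ := N.card * μ₀.real {none} * B with hρ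
  have hρ0 : 0 ≤ ρ := by
    have : (0 : ℝ) ≤ μ₀.real {none} := measureReal_nonneg
    positivity
  have h2 : ∀ t, D μ₀ N (t + 1) ≤ ρ ^ t * D μ₀ N 1 := by
    intro t
    induction t with
    | zero => simp
    | succ t ih =>
      calc D μ₀ N (t + 1 + 1) ≤ ρ * D μ₀ N (t + 1) := D_step μ₀ N hB0 hm hB t
        _ ≤ ρ * (ρ ^ t * D μ₀ N 1) := mul_le_mul_of_nonneg_left ih hρ0
        _ = ρ ^ (t + 1) * D μ₀ N 1 := by ring
  rw [← Filter.tendsto_add_atTop_iff_nat 1]
  refine squeeze_zero (fun t => D_nonneg μ₀ N (t + 1)) h2 ?_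
  have h3 := (tendsto_pow_atTop_nhds_zero_of_lt_one hρ0 h1).mul_const (D μ₀ N 1)
  rwa [zero_mul] at h3

end prob

end Pool.Agent.Helper77.VoteSqrt
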