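import Pool.Agent.Helper77.VoteSqrt.Contr

/-! Ergodicity of the noisy majority voting in the contraction range of the mean field. -/

set_option autoImplicit false

namespace Pool.Agent.Helper77.VoteSqrt

open MeasureTheory Set ProbabilityTheory Pool.Agent.Helper55.Vote

theorem law_none {ε δ : ℝ} (hε : 0 ≤ ε) (hδ : 0 ≤ δ) (h : ε + δ ≤ 1) :
    (law ε δ).real {none} = 1 - ε - δ := by
  have hp : IsProbabilityMeasure (law ε δ) := law_prob hε hδ h
  have h1 : ({none} : Set (Option Bool)) = ({some true} ∪ {some false})ᶜ := by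
    ext o
    rcases o with _ | _ | _ <;> simp
  rw [h1, probReal_compl_eq_one_sub (Set.toFinite _).measurableSet,
    measureReal_union (by simp) (Set.toFinite _).measurableSet, law_true hδ, law_false hε]
  ring

theorem coeff_pattern (p q : ℝ) (S : Finset ℤ) (a : ℤ → Bool) {l : ℕ} (hS : S.card = l) (m : ℕ) :
    ∃ k ≤ l, (∏ j ∈ S, gp (if a j then p else q)).coeff m =
      ∑ i ∈ Finset.range (m + 1), (k.choose i : ℝ) * p ^ i * (1 - p) ^ (k - i) *
        (((l - k).choose (m - i) : ℝ) * q ^ (m - i) * (1 - q) ^ (l - k - (m - i))) := by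
  classical
  have h1 : ∏ j ∈ S, gp (if a j then p else q) =
      (gp p) ^ (S.filter fun j => a j = true).card *
        (gp q) ^ (S.filter fun j => ¬ a j = true).card := by
    rw [← Finset.prod_const, ← Finset.prod_const, ← Finset.prod_ite]
    refine Finset.prod_congr rfl fun j _ => ?_
    by_cases h : a j = true
    · rw [if_pos h, if_pos h]
    · rw [if_neg h, if_neg h]
  have h2 := Finset.card_filter_add_card_filter_not (s := S) (fun j => a j = true)
  refine ⟨(S.filter fun j => a j = true).card, ?_, ?_⟩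
  · rw [← hS]
    exact Finset.card_filter_le _ _
  · rw [h1, coeff_two]
    have h3 : (S.filter fun j => ¬ a j = true).card =
        l - (S.filter fun j => a j = true).card := by omega
    rw [h3]

variable (N : Finset ℤ) {m : ℕ} {ε δ : ℝ}

theorem ergodic_of_coeff (hm : N.card = 2 * m + 1) (hε : 0 < ε) (hδ : 0 < δ) (h1 : ε + δ ≤ 1)
    {B : ℝ} (hB0 : 0 ≤ B) (hB : ∀ i ∈ N, ∀ a : ℤ → Bool,
      (∏ j ∈ N.erase i, gp (if a j then 1 - ε else δ)).coeff m ≤ B)
    (h : N.card * (1 - ε - δ) * B < 1) : Ergodic N ε δ := by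
  have hp : IsProbabilityMeasure (law ε δ) := law_prob hε.le hδ.le h1
  refine ergodic_of_decay N ε δ hε hδ h1 (D_tendsto (law ε δ) N hB0 hm ?_ ?_)
  · intro i hi a
    refine le_trans (le_of_eq ?_) (hB i hi a)
    refine congrArg (fun f : Polynomial ℝ => f.coeff m) (Finset.prod_congr rfl fun j _ => ?_)
    rw [law_getD hε.le hδ.le h1]
    rcases a j <;> rfl
  · rwa [law_none hε.le hδ.le h1]

theorem ergodic_exact (hm : N.card = 2 * m + 1) (hε : 0 < ε) (hδ : 0 < δ) (h1 : ε + δ ≤ 1)
    (h : ∀ k ≤ 2 * m, N.card * (1 - ε - δ) * ∑ i ∈ Finset.range (m + 1),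
      ((k.choose i : ℝ) * (1 - ε) ^ i * ε ^ (k - i)) *
      (((2 * m - k).choose (m - i) : ℝ) * δ ^ (m - i) * (1 - δ) ^ (2 * m - k - (m - i))) < 1) :
    Ergodic N ε δ := by
  set P : ℕ → ℝ := fun k => ∑ i ∈ Finset.range (m + 1),
      ((k.choose i : ℝ) * (1 - ε) ^ i * ε ^ (k - i)) *
      (((2 * m - k).choose (m - i) : ℝ) * δ ^ (m - i) * (1 - δ) ^ (2 * m - k - (m - i))) with hP
  have hδ1 : (0 : ℝ) ≤ 1 - δ := by linarith
  have hε1 : (0 : ℝ) ≤ 1 - ε := by linarith
  obtain ⟨k0, hk0, hmax⟩ := Finset.exists_max_image (Finset.range (2 * m + 1)) P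
    ⟨0, Finset.mem_range.mpr (by omega)⟩
  rw [Finset.mem_range] at hk0
  refine ergodic_of_coeff N hm hε hδ h1 (B := P k0) ?_ ?_ (h k0 (by omega))
  · exact Finset.sum_nonneg fun i _ => by positivity
  · intro i hi a
    have hc : (N.erase i).card = 2 * m := by
      rw [Finset.card_erase_of_mem hi, hm]
      rfl
    obtain ⟨k, hk, hk2⟩ := coeff_pattern (1 - ε) δ (N.erase i) a hc m
    rw [hk2, sub_sub_cancel]
    exact hmax k (Finset.mem_range.mpr (by omega))

theorem ergodic_sqrt (hm : N.card = 2 * m + 1) (hε : 0 < ε) (hδ : 0 < δ) (h1 : ε + δ ≤ 1)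
    {A : ℝ} (hA : 0 < A) (hB : ∀ i ∈ N, ∀ a : ℤ → Bool,
      (∏ j ∈ N.erase i, gp (if a j then 1 - ε else δ)).coeff m ≤ Real.sqrt A)
    (h : (N.card * (1 - ε - δ)) ^ 2 * A < 1) : Ergodic N ε δ := by
  refine ergodic_of_coeff N hm hε hδ h1 (Real.sqrt_nonneg A) hB ?_
  have h2 : (N.card * (1 - ε - δ) * Real.sqrt A) ^ 2 < 1 ^ 2 := by
    rw [mul_pow, Real.sq_sqrt hA.le, one_pow]
    exact h
  exact lt_of_pow_lt_pow_left₀ 2 (by norm_num) h2

theorem param_bound (h1 : ε + δ ≤ 1) (b : Bool) :
    min ε δ ≤ (if b then 1 - ε else δ) ∧ min ε δ ≤ 1 - (if b then 1 - ε else δ) := by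
  have h2 := min_le_left ε δ
  have h3 := min_le_right ε δ
  rcases b with - | -
  · simp only [Bool.false_eq_true, if_false]
    constructor <;> linarith
  · simp only [if_true]
    constructor <;> linarith

/-- rare noise of one kind -/
theorem coeff_rare (hε : 0 < ε) (hδ : 0 < δ) (h1 : ε + δ ≤ 1) {S : Finset ℤ}
    (hS : S.card = 2 * m) (a : ℤ → Bool) :
    (∏ j ∈ S, gp (if a j then 1 - ε else δ)).coeff m ≤
      (4 * (1 - max ε δ)) ^ m := by
  set u : ℝ := 1 - max ε δ with hu
  have hmin : min ε δ ≤ u := by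
    rcases le_total ε δ with h | h
    · rw [hu, max_eq_right h, min_eq_left h]; linarith
    · rw [hu, max_eq_left h, min_eq_right h]; linarith
  have hu0 : 0 < u := lt_of_lt_of_le (lt_min hε hδ) hmin
  have hc : ((2 * m).choose m : ℝ) ≤ 4 ^ m := by
    have h2 : (2 * m).choose m ≤ 2 ^ (2 * m) := Nat.choose_le_two_pow _ _
    have h3 : (2 : ℕ) ^ (2 * m) = 4 ^ m := by
      rw [pow_mul]
      norm_num
    rw [h3] at h2
    exact_mod_cast h2
  have key : (∏ j ∈ S, gp (if a j then 1 - ε else δ)).coeff m ≤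
      ((2 * m).choose m : ℝ) * u ^ m := by
    rcases le_total ε δ with h | h
    · have h4 := coeff_small' S (fun j => if a j then 1 - ε else δ) hu0.le (fun j _ => by
        have e1 : u = 1 - δ := by rw [hu, max_eq_right h]
        rw [e1]
        split_ifs
        · exact ⟨by linarith, by linarith, by linarith⟩
        · exact ⟨by linarith, by linarith, by linarith⟩) m
      rw [hS] at h4
      have h5 : (0 : ℝ) < u ^ m := by positivity
      have h6 : ((2 * m).choose m : ℝ) * u ^ (2 * m) =
          (((2 * m).choose m : ℝ) * u ^ m) * u ^ m := by ring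
      rw [h6] at h4
      exact le_of_mul_le_mul_right h4 h5
    · have h4 := coeff_small S (fun j => if a j then 1 - ε else δ) hu0.le (fun j _ => by
        have e1 : u = 1 - ε := by rw [hu, max_eq_left h]
        rw [e1]
        split_ifs
        · exact ⟨by linarith, by linarith, by linarith⟩
        · exact ⟨by linarith, by linarith, by linarith⟩) m
      rw [hS] at h4
      exact h4
  refine key.trans ?_
  rw [mul_pow]
  exact mul_le_mul_of_nonneg_right hc (by positivity)

/-- the main theorem -/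
theorem ergodic_main (hm : N.card = 2 * m + 1) (hε : 0 < ε) (hδ : 0 < δ) (h1 : ε + δ ≤ 1)
    (h : (∀ k ≤ 2 * m, N.card * (1 - ε - δ) * ∑ i ∈ Finset.range (m + 1),
      ((k.choose i : ℝ) * (1 - ε) ^ i * ε ^ (k - i)) *
      (((2 * m - k).choose (m - i) : ℝ) * δ ^ (m - i) * (1 - δ) ^ (2 * m - k - (m - i))) < 1) ∨
      16 * N.card * (1 - ε - δ) ^ 2 ≤ 1 ∨
      N.card * (1 - ε - δ) ^ 2 < 2 * min ε δ ∨
      (1 - ε - δ) ^ 2 * (N.card / (2 * min ε δ) + 1 / (2 * min ε δ ^ 2)) < Real.pi / 2) :
    Ergodic N ε δ := by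
  have hη : 0 < min ε δ := lt_min hε hδ
  have hη2 : 2 * min ε δ ≤ 1 := by
    have h2 := min_le_left ε δ
    have h3 := min_le_right ε δ
    linarith
  have hn : (0 : ℝ) < N.card := by
    rw [hm]
    positivity
  have hcard : ∀ i ∈ N, (((N.erase i).card : ℕ) : ℝ) + 1 = N.card := by
    intro i hi
    rw [Finset.card_erase_of_mem hi, hm]
    push_cast
    ring
  have hpi := Real.pi_pos
  have hsimple : N.card * (1 - ε - δ) ^ 2 < 2 * min ε δ → Ergodic N ε δ := by
    intro h
    refine ergodic_sqrt N hm hε hδ h1 (A := 1 / (N.card * (2 * min ε δ))) (by positivity) ?_ ?_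
    · intro i hi a
      have h2 := coeff_prod_le_sqrt (N.erase i) (fun j => if a j then 1 - ε else δ) hη
        (fun j _ => param_bound h1 (a j)) m hη2
      rwa [hcard i hi] at h2
    · rw [mul_pow, mul_one_div, div_lt_one (by positivity)]
      nlinarith
  rcases h with h | h | h | h
  · exact ergodic_exact N hm hε hδ h1 h
  · have hr0 : 0 ≤ 1 - ε - δ := by linarith
    rcases Nat.eq_zero_or_pos m with rfl | hmpos
    · refine ergodic_exact N hm hε hδ h1 fun k hk => ?_
      have hk0 : k = 0 := by omega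
      subst hk0
      rw [hm]
      norm_num
      linarith
    · by_cases h2 : 1 / 32 < min ε δ
      · exact hsimple (by nlinarith)
      · rw [not_lt] at h2
        have hm1 : (1 : ℝ) ≤ m := by exact_mod_cast hmpos
        have hn1 : (N.card : ℝ) = 2 * m + 1 := by
          rw [hm]
          push_cast
          ring
        have hr : 1 - ε - δ ≤ 5 / 32 := by
          by_contra hc
          rw [not_le] at hc
          nlinarith
        have hu : 1 - max ε δ ≤ 3 / 16 := by
          have : min ε δ + max ε δ = ε + δ := min_add_max ε δ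
          linarith
        have hu0 : 0 ≤ 1 - max ε δ := by
          have := max_le (by linarith : ε ≤ 1) (by linarith : δ ≤ 1)
          linarith
        refine ergodic_of_coeff N hm hε hδ h1 (B := (3 / 4) ^ m) (by positivity) ?_ ?_
        · intro i hi a
          have hc : (N.erase i).card = 2 * m := by
            rw [Finset.card_erase_of_mem hi, hm]
            rfl
          exact (coeff_rare hε hδ h1 hc a).trans
            (pow_le_pow_left₀ (by positivity) (by linarith) m)
        · have h3 : (N.card * (1 - ε - δ) * (3 / 4) ^ m) ^ 2 < 1 ^ 2 := by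
            have h4 : ((1 : ℝ) + 7 / 9 * m) ≤ (16 / 9) ^ m := by
              have h5 := one_add_mul_le_pow (by norm_num : (-2 : ℝ) ≤ 7 / 9) m
              have h6 : (1 + 7 / 9 : ℝ) = 16 / 9 := by norm_num
              rw [h6] at h5
              linarith
            have h5 : ((16 : ℝ) / 9) ^ m * ((3 / 4) ^ m) ^ 2 = 1 := by
              rw [← pow_mul, mul_comm m 2, pow_mul, ← mul_pow]
              norm_num
            have h6 : (N.card * (1 - ε - δ) * (3 / 4) ^ m) ^ 2 =
                N.card * (N.card * (1 - ε - δ) ^ 2) * ((3 / 4) ^ m) ^ 2 := by ring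
            have h7 : N.card * (1 - ε - δ) ^ 2 ≤ 1 / 16 := by linarith
            have h8 : (0 : ℝ) < ((3 / 4) ^ m) ^ 2 := by positivity
            have h9 : (N.card : ℝ) * (N.card * (1 - ε - δ) ^ 2) < (16 / 9) ^ m := by
              calc (N.card : ℝ) * (N.card * (1 - ε - δ) ^ 2) ≤ N.card * (1 / 16) :=
                    mul_le_mul_of_nonneg_left h7 hn.le
                _ < 1 + 7 / 9 * m := by
                    rw [hn1]
                    linarith
                _ ≤ (16 / 9) ^ m := h4
            rw [h6]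
            calc N.card * (N.card * (1 - ε - δ) ^ 2) * ((3 / 4) ^ m) ^ 2
                < (16 / 9) ^ m * ((3 / 4) ^ m) ^ 2 := mul_lt_mul_of_pos_right h9 h8
              _ = 1 ^ 2 := by rw [h5, one_pow]
          exact lt_of_pow_lt_pow_left₀ 2 (by norm_num) h3
  · exact hsimple h
  · refine ergodic_sqrt N hm hε hδ h1 (A := 2 / Real.pi * (1 / (N.card * (2 * min ε δ)) +
      2 * (1 / (N.card * (N.card + 1) * (2 * min ε δ) ^ 2)))) (by positivity) ?_ ?_
    · intro i hi a
      have h2 := coeff_prod_le_pi (N.erase i) (fun j => if a j then 1 - ε else δ) hη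
        (fun j _ => param_bound h1 (a j)) m hη2
      have h3 : (((N.erase i).card : ℕ) : ℝ) + 2 = N.card + 1 := by
        rw [← hcard i hi]
        ring
      rwa [h3, hcard i hi] at h2
    · have h4 : (N.card * (1 - ε - δ)) ^ 2 * (2 / Real.pi * (1 / (N.card * (2 * min ε δ)) +
          2 * (1 / (N.card * (N.card + 1) * (2 * min ε δ) ^ 2)))) =
          2 / Real.pi * ((1 - ε - δ) ^ 2 * (N.card / (2 * min ε δ) +
            N.card / (N.card + 1) * (1 / (2 * min ε δ ^ 2)))) := by
        field_simp
      rw [h4]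
      have h5 : (N.card : ℝ) / (N.card + 1) * (1 / (2 * min ε δ ^ 2)) ≤
          1 / (2 * min ε δ ^ 2) := by
        have h6 : (N.card : ℝ) / (N.card + 1) ≤ 1 := by
          rw [div_le_one (by positivity)]
          linarith
        calc (N.card : ℝ) / (N.card + 1) * (1 / (2 * min ε δ ^ 2))
            ≤ 1 * (1 / (2 * min ε δ ^ 2)) := mul_le_mul_of_nonneg_right h6 (by positivity)
          _ = _ := one_mul _
      have h6 : (1 - ε - δ) ^ 2 * (N.card / (2 * min ε δ) +
            N.card / (N.card + 1) * (1 / (2 * min ε δ ^ 2))) < Real.pi / 2 :=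
        lt_of_le_of_lt (mul_le_mul_of_nonneg_left (by linarith) (sq_nonneg _)) h
      calc 2 / Real.pi * ((1 - ε - δ) ^ 2 * (N.card / (2 * min ε δ) +
            N.card / (N.card + 1) * (1 / (2 * min ε δ ^ 2))))
          < 2 / Real.pi * (Real.pi / 2) := mul_lt_mul_of_pos_left h6 (by positivity)
        _ = 1 := by
            field_simp

end Pool.Agent.Helper77.VoteSqrt
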